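import Pool.Agent.TH138.NF.Defs

/-!
# Chain links: definitions
-/

set_option autoImplicit false

namespace Pool.Agent.V11247.Cmp

open Finset

/-- Let `β` be a property of the `r`-subsets of `V`. For every set `M` of `r - 2` vertices of `V`
consider the relation `{x, z} ∪ M` has the property `β` between the vertices `x` of `V` below
(all elements of) `M` and the vertices `z` of `V` above `M`. The condition says that this relation
is a chain: it contains no two disjoint pairs `(x, z)`, `(x', z')` such that neither `(x, z')` nor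
`(x', z)` is in the relation (all four pairs being in the domain, that is `x, x' < z, z'`). -/
def ChainLinks (r : ℕ) (V : Finset ℕ) (β : Finset ℕ → Prop) : Prop :=
  ∀ M ⊆ V, M.card + 2 = r → ∀ x ∈ V, ∀ x' ∈ V, ∀ z ∈ V, ∀ z' ∈ V,
    (∀ v ∈ M, x < v ∧ x' < v ∧ v < z ∧ v < z') → x < z → x < z' → x' < z → x' < z' →
      β (insert x (insert z M)) → β (insert x' (insert z' M)) →
        β (insert x (insert z' M)) ∨ β (insert x' (insert z M))

lemma ChainLinks.mono {r : ℕ} {V W : Finset ℕ} {β : Finset ℕ → Prop} (h : ChainLinks r V β)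
    (hW : W ⊆ V) : ChainLinks r W β := by
  intro M hM hc x hx x' hx' z hz z' hz'
  exact h M (hM.trans hW) hc x (hW hx) x' (hW hx') z (hW hz) z' (hW hz')

/-- all `k`-subsets of `H` behave in the same way -/
def PHom (k : ℕ) (β : Finset ℕ → Prop) (H : Finset ℕ) : Prop :=
  ∀ A ⊆ H, ∀ B ⊆ H, A.card = k → B.card = k → (β A ↔ β B)

lemma PHom.mono {k : ℕ} {β : Finset ℕ → Prop} {H G : Finset ℕ} (h : PHom k β H) (hG : G ⊆ H) :
    PHom k β G := fun A hA B hB => h A (hA.trans hG) B (hB.trans hG)

end Pool.Agent.V11247.Cmp
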