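import Pool.Agent.V11247.Cmp.Defs
import Pool.Agent.TH138.NF.End

/-!
# Chain links: the last vertex can be removed
-/

set_option autoImplicit false

namespace Pool.Agent.V11247.Cmp

open Finset

lemma image_snoc {s : ℕ} (f : Fin s → ℕ) (z : ℕ) :
    Finset.univ.image (Fin.snoc f z : Fin (s + 1) → ℕ) = insert z (Finset.univ.image f) := by
  classical
  ext a
  simp only [mem_image, mem_univ, true_and, mem_insert]
  constructor
  · rintro ⟨i, rfl⟩
    refine Fin.lastCases ?_ (fun j => ?_) i
    · left; simp
    · right; exact ⟨j, by simp⟩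
  · rintro (rfl | ⟨j, rfl⟩)
    · exact ⟨Fin.last _, by simp⟩
    · exact ⟨j.castSucc, by simp⟩

/-- end-homogeneous sets -/
theorem end_sets {Λ : Type} [Fintype Λ] [DecidableEq Λ] (s : ℕ) (χ : Finset ℕ → Λ)
    (V : Finset ℕ) (m E : ℕ) (hE : E = 2 * Fintype.card Λ ^ ((s + 1) * m ^ s))
    (hV : E ^ m ≤ V.card) :
    ∃ P ⊆ V, P.card = m ∧ ∃ zs ∈ V, (∀ p ∈ P, p < zs) ∧
      ∀ A ⊆ P, A.card = s + 1 → ∀ z ∈ P, (∀ a ∈ A, a < z) →
        χ (insert z A) = χ (insert zs A) := by
  classical
  obtain ⟨v, W, hWV, hWc, hvV, hvm, hvW, -, h2⟩ :=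
    Pool.Agent.TH138.NF.end_hom (fun x : Fin (s + 2) → ℕ => χ (Finset.univ.image x)) V m E hE hV
      m le_rfl
  rw [Nat.sub_self, pow_zero] at hWc
  obtain ⟨zs, hzs⟩ := card_pos.1 hWc
  have hinj : Set.InjOn v (range m : Set ℕ) := by
    intro i hi j hj hij
    rw [mem_coe, mem_range] at hi hj
    rcases lt_trichotomy i j with h | h | h
    · exact absurd hij (hvm i j h hj).ne
    · exact h
    · exact absurd hij (hvm j i h hi).ne'
  refine ⟨(range m).image v, ?_, by rw [card_image_of_injOn hinj, card_range], zs, hWV hzs, ?_, ?_⟩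
  · intro p hp
    obtain ⟨i, hi, rfl⟩ := mem_image.1 hp
    exact hvV i (mem_range.1 hi)
  · intro p hp
    obtain ⟨i, hi, rfl⟩ := mem_image.1 hp
    exact hvW i (mem_range.1 hi) zs hzs
  · intro A hA hAc z hz hAz
    obtain ⟨j, hj, rfl⟩ := mem_image.1 hz
    rw [mem_range] at hj
    have hmem : ∀ k : Fin (s + 1), ∃ i, i < m ∧ v i = A.orderEmbOfFin hAc k := by
      intro k
      have := hA (A.orderEmbOfFin_mem hAc k)
      obtain ⟨i, hi, e⟩ := mem_image.1 this
      exact ⟨i, mem_range.1 hi, e⟩
    choose i hi hvi using hmem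
    have hij : ∀ k, i k < j := by
      intro k
      by_contra hcon
      push Not at hcon
      have h3 : v j ≤ v (i k) := by
        rcases hcon.eq_or_lt with h | h
        · rw [h]
        · exact (hvm j (i k) h (hi k)).le
      have h4 := hAz _ (A.orderEmbOfFin_mem hAc k)
      rw [← hvi k] at h4
      omega
    have hAe : A = Finset.univ.image (fun a => v (i a)) := by
      ext a
      simp only [mem_image, mem_univ, true_and]
      constructor
      · intro ha
        have : a ∈ Set.range (A.orderEmbOfFin hAc) := by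
          rw [range_orderEmbOfFin]; exact ha
        obtain ⟨k, hk⟩ := this
        exact ⟨k, by rw [hvi k]; exact hk⟩
      · rintro ⟨k, rfl⟩
        rw [hvi k]
        exact A.orderEmbOfFin_mem hAc k
    have h5 := h2 i j hj hij zs hzs
    simp only [image_snoc] at h5
    rw [← hAe] at h5
    exact h5

/-- `true` if the sets of vertices above `A` in relation to `A` without its second element are in
relation to `A` without its smallest element -/
def Nest (V : Finset ℕ) (β : Finset ℕ → Prop) (A : Finset ℕ) : Prop :=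
  ∀ z ∈ V, (∀ v ∈ A, v < z) → ∀ a ∈ A, ∀ b ∈ A, a < b → (∀ v ∈ A, v ≠ a → b ≤ v) →
    β (insert z (A.erase b)) → β (insert z (A.erase a))

theorem step_chain {s : ℕ} {V P : Finset ℕ} {β : Finset ℕ → Prop} {zs : ℕ}
    (hβ : ChainLinks (s + 3) V β) (hPV : P ⊆ V) (hzs : zs ∈ V) (hPz : ∀ p ∈ P, p < zs)
    (hN : ∀ A ⊆ P, A.card = s + 2 → ∀ w ∈ P, ∀ w' ∈ P, (∀ a ∈ A, a < w) → (∀ a ∈ A, a < w') →
      (Nest V β (insert w A) ↔ Nest V β (insert w' A))) :
    ChainLinks (s + 2) P (fun A => β (insert zs A)) := by
  classical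
  -- the essential case
  have key : ∀ M ⊆ P, M.card + 2 = s + 2 → ∀ x ∈ P, ∀ x' ∈ P, ∀ w ∈ P, ∀ w' ∈ P, x < x' →
      (∀ v ∈ M, x < v ∧ x' < v ∧ v < w ∧ v < w') → x < w → x < w' → x' < w → x' < w' →
      β (insert zs (insert x (insert w M))) → ¬ β (insert zs (insert x' (insert w M))) →
      (Nest V β (insert w' (insert x (insert x' M)))) → False := by
    intro M hM hMc x hx x' hx' w hw w' hw' hxx hMl h1 h2 h3 h4 b1 b2 hnest
    have hxM : x ∉ M := fun h => lt_irrefl _ (hMl x h).1
    have hx'M : x' ∉ M := fun h => lt_irrefl _ (hMl x' h).2.1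
    have hA : insert x (insert x' M) ⊆ P := insert_subset hx (insert_subset hx' hM)
    have hAc : (insert x (insert x' M)).card = s + 2 := by
      rw [card_insert_of_notMem (by simp [hxx.ne, hxM]), card_insert_of_notMem hx'M]
      omega
    have hAw : ∀ a ∈ insert x (insert x' M), a < w := by
      intro a ha
      rcases mem_insert.1 ha with rfl | ha
      · exact h1
      rcases mem_insert.1 ha with rfl | ha
      · exact h3
      · exact (hMl a ha).2.2.1
    have hAw' : ∀ a ∈ insert x (insert x' M), a < w' := by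
      intro a ha
      rcases mem_insert.1 ha with rfl | ha
      · exact h2
      rcases mem_insert.1 ha with rfl | ha
      · exact h4
      · exact (hMl a ha).2.2.2
    have hn := (hN _ hA hAc w hw w' hw' hAw hAw').2 hnest
    have e1 : (insert w (insert x (insert x' M))).erase x' = insert x (insert w M) := by
      ext a
      simp only [mem_erase, mem_insert]
      constructor
      · rintro ⟨h5, rfl | rfl | rfl | h⟩
        · simp
        · simp
        · exact absurd rfl h5
        · simp [h]
      · rintro (rfl | rfl | h)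
        · exact ⟨hxx.ne, by simp⟩
        · exact ⟨h3.ne', by simp⟩
        · exact ⟨fun e => hx'M (e ▸ h), by simp [h]⟩
    have e2 : (insert w (insert x (insert x' M))).erase x = insert x' (insert w M) := by
      ext a
      simp only [mem_erase, mem_insert]
      constructor
      · rintro ⟨h5, rfl | rfl | rfl | h⟩
        · simp
        · exact absurd rfl h5
        · simp
        · simp [h]
      · rintro (rfl | rfl | h)
        · exact ⟨hxx.ne', by simp⟩
        · exact ⟨h1.ne', by simp⟩
        · exact ⟨fun e => hxM (e ▸ h), by simp [h]⟩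
    have h6 := hn zs hzs (by
      intro v hv
      rcases mem_insert.1 hv with rfl | hv
      · exact hPz _ hw
      · exact hPz _ (hA hv)) x (by simp) x' (by simp) hxx (by
      intro v hv hvx
      rcases mem_insert.1 hv with rfl | hv
      · exact h3.le
      rcases mem_insert.1 hv with rfl | hv
      · exact absurd rfl hvx
      rcases mem_insert.1 hv with rfl | hv
      · exact le_rfl
      · exact (hMl v hv).2.1.le)
    rw [e1, e2] at h6
    exact b2 (h6 b1)
  intro M hM hMc x hx x' hx' w hw w' hw' hMl h1 h2 h3 h4 b1 b2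
  by_contra hcon
  push Not at hcon
  obtain ⟨b3, b4⟩ := hcon
  -- `b1 : x w`, `b2 : x' w'`, `b3 : ¬ x w'`, `b4 : ¬ x' w`
  have hxM : x ∉ M := fun h => lt_irrefl _ (hMl x h).1
  have hx'M : x' ∉ M := fun h => lt_irrefl _ (hMl x' h).2.1
  -- nestedness at `w'`
  have nest_of : ∀ (y y' u u' : ℕ), y ∈ P → y' ∈ P → u ∈ P → u' ∈ P → y < y' →
      (∀ v ∈ M, y < v ∧ y' < v ∧ v < u ∧ v < u') → y < u → y < u' → y' < u → y' < u' →
      β (insert zs (insert y' (insert u' M))) → ¬ β (insert zs (insert y (insert u' M))) →
      Nest V β (insert u' (insert y (insert y' M))) := by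
    intro y y' u u' hy hy' hu hu' hyy hl g1 g2 g3 g4 c1 c2
    have hyM : y ∉ M := fun h => lt_irrefl _ (hl y h).1
    have hy'M : y' ∉ M := fun h => lt_irrefl _ (hl y' h).2.1
    intro z hz hzl a ha b hb hab hmin hza
    -- `a = y`, `b = y'`
    have hay : a = y := by
      by_contra hne
      have := hmin y (by simp) (fun h => hne h.symm)
      rcases mem_insert.1 ha with rfl | ha
      · omega
      rcases mem_insert.1 ha with rfl | ha
      · exact hne rfl
      rcases mem_insert.1 ha with rfl | ha
      · omega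
      · have := (hl a ha).1
        omega
    subst hay
    have hby : b = y' := by
      have h5 := hmin y' (by simp) hyy.ne'
      rcases mem_insert.1 hb with rfl | hb
      · omega
      rcases mem_insert.1 hb with rfl | hb
      · omega
      rcases mem_insert.1 hb with rfl | hb
      · rfl
      · have := (hl b hb).2.1
        omega
    subst hby
    have e1 : (insert u' (insert a (insert b M))).erase b = insert a (insert u' M) := by
      ext v
      simp only [mem_erase, mem_insert]
      constructor
      · rintro ⟨h5, rfl | rfl | rfl | h⟩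
        · simp
        · simp
        · exact absurd rfl h5
        · simp [h]
      · rintro (rfl | rfl | h)
        · exact ⟨hyy.ne, by simp⟩
        · exact ⟨g4.ne', by simp⟩
        · exact ⟨fun e => hy'M (e ▸ h), by simp [h]⟩
    have e2 : (insert u' (insert a (insert b M))).erase a = insert b (insert u' M) := by
      ext v
      simp only [mem_erase, mem_insert]
      constructor
      · rintro ⟨h5, rfl | rfl | rfl | h⟩
        · simp
        · exact absurd rfl h5
        · simp
        · simp [h]
      · rintro (rfl | rfl | h)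
        · exact ⟨hyy.ne', by simp⟩
        · exact ⟨g2.ne', by simp⟩
        · exact ⟨fun e => hyM (e ▸ h), by simp [h]⟩
    rw [e1] at hza
    rw [e2]
    by_contra hzb
    have hu'M : u' ∉ M := fun h => lt_irrefl _ (hl u' h).2.2.2
    -- chain links for `insert u' M`
    have h7 := hβ (insert u' M) (insert_subset (hPV hu') (hM.trans hPV))
      (by rw [card_insert_of_notMem hu'M]; omega) a (hPV hy) b (hPV hy') z hz zs hzs
      (by
        intro v hv
        have hvz : v < z := hzl v (by
          rcases mem_insert.1 hv with rfl | hv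
          · simp
          · simp [hv])
        rcases mem_insert.1 hv with rfl | hv
        · exact ⟨g2, g4, hvz, hPz _ hu'⟩
        · exact ⟨(hl v hv).1, (hl v hv).2.1, hvz, hPz _ (hM hv)⟩)
      (hzl a (by simp)) (hPz _ hy) (hzl b (by simp)) (hPz _ hy')
    rw [Finset.insert_comm a z, Finset.insert_comm b zs, Finset.insert_comm a zs,
      Finset.insert_comm b z] at h7
    rcases h7 hza c1 with h | h
    · exact c2 h
    · exact hzb h
  rcases lt_trichotomy x x' with hxx | hxx | hxx
  · exact key M hM hMc x hx x' hx' w hw w' hw' hxx hMl h1 h2 h3 h4 b1 b4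
      (nest_of x x' w w' hx hx' hw hw' hxx hMl h1 h2 h3 h4 b2 b3)
  · subst hxx
    exact b4 b1
  · have hMl' : ∀ v ∈ M, x' < v ∧ x < v ∧ v < w' ∧ v < w := fun v hv =>
      ⟨(hMl v hv).2.1, (hMl v hv).1, (hMl v hv).2.2.2, (hMl v hv).2.2.1⟩
    exact key M hM hMc x' hx' x hx w' hw' w hw hxx hMl' h4 h3 h2 h1 b2 b3
      (nest_of x' x w' w hx' hx hw' hw hxx hMl' h4 h3 h2 h1 b1 b4)

end Pool.Agent.V11247.Cmp
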