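import Pool.Agent.V11247.Cmp.Pairs
import Pool.Agent.V11247.Cmp.Step

/-!
# Chain links: the main induction
-/

set_option autoImplicit false

namespace Pool.Agent.V11247.Cmp

open Finset

/-- number of vertices needed to find a link on `M` vertices, uniformity `s + 2` -/
def rb (K M : ℕ) : ℕ → ℕ
  | 0 => M
  | s + 1 => (2 * (4 ^ K) ^ ((s + 2) * (rb K M s) ^ (s + 1))) ^ (rb K M s)

/-- There is a large set `P` on which the properties only depend on the two smallest elements. -/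
theorem reduce (K M : ℕ) (s : ℕ) : ∀ (V : Finset ℕ) (β : Fin K → Finset ℕ → Prop),
    (∀ t, ChainLinks (s + 2) V (β t)) → rb K M s ≤ V.card →
      ∃ P ⊆ V, P.card = M ∧ ∃ S ⊆ V, S.card = s ∧ (∀ p ∈ P, ∀ z ∈ S, p < z) ∧
        (∀ t, ChainLinks 2 P (fun A => β t (A ∪ S))) ∧
        ∀ A ⊆ P, A.card = s + 2 → ∀ x ∈ A, ∀ y ∈ A, x < y → (∀ v ∈ A, v = x ∨ y ≤ v) →
          ∀ t, (β t A ↔ β t (insert x (insert y S))) := by
  classical
  induction s with
  | zero =>
    intro V β hβ hV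
    obtain ⟨P, hP, hPc⟩ := exists_subset_card_eq (s := V) (n := M) (by simpa [rb] using hV)
    refine ⟨P, hP, hPc, ∅, empty_subset _, rfl, by simp, fun t => ?_, ?_⟩
    · simpa using (hβ t).mono hP
    · intro A hA hAc x hx y hy hxy hmin t
      have : A = insert x (insert y ∅) := by
        symm
        apply eq_of_subset_of_card_le
        · exact insert_subset hx (insert_subset hy (empty_subset _))
        · rw [hAc, card_insert_of_notMem (by simp [hxy.ne])]
          simp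
      rw [← this]
  | succ s ih =>
    intro V β hβ hV
    let χ : Finset ℕ → (Fin K → Bool × Bool) := fun A t =>
      (decide (β t A), decide (Nest V (β t) A))
    have hcard : Fintype.card (Fin K → Bool × Bool) = 4 ^ K := by
      simp
    obtain ⟨P, hPV, hPc, zs, hzs, hPz, hP⟩ := end_sets (s + 1) χ V (rb K M s)
      (2 * (4 ^ K) ^ ((s + 2) * (rb K M s) ^ (s + 1))) (by rw [hcard]) hV
    have hb : ∀ t, ∀ A ⊆ P, A.card = s + 2 → ∀ z ∈ P, (∀ a ∈ A, a < z) →
        (β t (insert z A) ↔ β t (insert zs A)) := by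
      intro t A hA hAc z hz hAz
      have := congrFun (hP A hA hAc z hz hAz) t
      have h2 := congrArg Prod.fst this
      exact decide_eq_decide.1 h2
    have hn : ∀ t, ∀ A ⊆ P, A.card = s + 2 → ∀ z ∈ P, (∀ a ∈ A, a < z) →
        (Nest V (β t) (insert z A) ↔ Nest V (β t) (insert zs A)) := by
      intro t A hA hAc z hz hAz
      have := congrFun (hP A hA hAc z hz hAz) t
      have h2 := congrArg Prod.snd this
      exact decide_eq_decide.1 h2
    obtain ⟨Q, hQ, hQc, S, hS, hSc, hQS, hch, hdep⟩ := ih P (fun t A => β t (insert zs A))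
      (fun t => step_chain (hβ t) hPV hzs hPz
        (fun A hA hAc w hw w' hw' h1 h2 =>
          (hn t A hA hAc w hw h1).trans (hn t A hA hAc w' hw' h2).symm)) (by rw [hPc])
    have hzS : zs ∉ S := fun h => lt_irrefl _ (hPz zs (hS h))
    refine ⟨Q, hQ.trans hPV, hQc, insert zs S, insert_subset hzs (hS.trans hPV),
      by rw [card_insert_of_notMem hzS, hSc], ?_, fun t => ?_, ?_⟩
    · intro p hp z hz
      rcases mem_insert.1 hz with rfl | hz
      · exact hPz p (hQ hp)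
      · exact hQS p hp z hz
    · have h1 := hch t
      have h2 : (fun A => β t (A ∪ insert zs S)) = fun A => β t (insert zs (A ∪ S)) := by
        funext A
        rw [union_insert]
      rw [h2]
      exact h1
    · intro A hA hAc x hx y hy hxy hmin t
      have hne : A.Nonempty := ⟨x, hx⟩
      set z := A.max' hne with hz
      have hzA : z ∈ A := max'_mem _ _
      -- a third element
      have hxyc : ({x, y} : Finset ℕ).card = 2 := card_pair hxy.ne
      have hthird : ∃ v ∈ A, y < v := by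
        by_contra hcon
        push Not at hcon
        have : A ⊆ {x, y} := by
          intro v hv
          rcases hmin v hv with h | h
          · simp [h]
          · have := hcon v hv
            simp [le_antisymm this h]
        have := card_le_card this
        omega
      obtain ⟨v, hv, hyv⟩ := hthird
      have hvz : v ≤ z := le_max' _ _ hv
      have hyz : y ≠ z := by omega
      have hxz : x ≠ z := by omega
      have hA0 : A.erase z ⊆ Q := (erase_subset _ _).trans hA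
      have hA0c : (A.erase z).card = s + 2 := by
        rw [card_erase_of_mem hzA, hAc]
        omega
      have h1 := hb t (A.erase z) (hA0.trans hQ) hA0c z (hQ (hA hzA))
          (fun a ha => lt_of_le_of_ne (le_max' _ _ (mem_of_mem_erase ha)) (ne_of_mem_erase ha))
      rw [insert_erase hzA] at h1
      rw [h1]
      have h2 := hdep (A.erase z) hA0 hA0c x (mem_erase.2 ⟨hxz, hx⟩) y (mem_erase.2 ⟨hyz, hy⟩)
        hxy (fun u hu => hmin u (mem_of_mem_erase hu)) t
      rw [h2, Finset.insert_comm zs x, Finset.insert_comm zs y]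

/-- the two smallest elements -/
lemma exists_two {A : Finset ℕ} (hA : 2 ≤ A.card) :
    ∃ x ∈ A, ∃ y ∈ A, x < y ∧ ∀ v ∈ A, v = x ∨ y ≤ v := by
  have hne : A.Nonempty := card_pos.1 (by omega)
  set x := A.min' hne with hx
  have hxA : x ∈ A := min'_mem _ _
  have hne2 : (A.erase x).Nonempty := card_pos.1 (by rw [card_erase_of_mem hxA]; omega)
  set y := (A.erase x).min' hne2 with hy
  have hyA : y ∈ A.erase x := min'_mem _ _
  refine ⟨x, hxA, y, mem_of_mem_erase hyA, ?_, ?_⟩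
  · exact lt_of_le_of_ne (min'_le _ _ (mem_of_mem_erase hyA)) (ne_of_mem_erase hyA).symm
  · intro v hv
    by_cases h : v = x
    · exact Or.inl h
    · exact Or.inr (min'_le _ _ (mem_erase.2 ⟨h, hv⟩))

/-! ### towers -/

/-- towers -/
def tw : ℕ → ℕ → ℕ
  | 0, x => x
  | k + 1, x => 2 ^ tw k x

lemma tw_cast (k x : ℕ) : ((tw k x : ℕ) : ℝ) = Pool.Agent.TH138.NF.tow k x := by
  induction k with
  | zero => simp [tw, Pool.Agent.TH138.NF.tow]
  | succ k ih =>
    simp only [tw, Pool.Agent.TH138.NF.tow]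
    rw [← ih]
    push_cast
    rw [Real.rpow_natCast]

lemma tw_mono (k : ℕ) : Monotone (tw k) := by
  induction k with
  | zero => exact fun _ _ h => h
  | succ k ih => exact fun _ _ h => Nat.pow_le_pow_right (by norm_num) (ih h)

lemma tw_pos (k : ℕ) {x : ℕ} (hx : 1 ≤ x) : 1 ≤ tw k x := by
  cases k with
  | zero => exact hx
  | succ k => exact Nat.one_le_two_pow

lemma mul_tw (k : ℕ) {a x : ℕ} (ha : 1 ≤ a) (hx : 1 ≤ x) : a * tw k x ≤ tw k (a * x) := by
  induction k with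
  | zero => exact le_rfl
  | succ k ih =>
    show a * 2 ^ tw k x ≤ 2 ^ tw k (a * x)
    have h1 := tw_pos k hx
    have h2 : tw k x + (a - 1) ≤ a * tw k x := by
      obtain ⟨b, rfl⟩ : ∃ b, a = b + 1 := ⟨a - 1, by omega⟩
      simp only [Nat.add_sub_cancel]
      nlinarith
    have h3 : a ≤ 2 ^ (a - 1) := by
      obtain ⟨b, rfl⟩ : ∃ b, a = b + 1 := ⟨a - 1, by omega⟩
      simp only [Nat.add_sub_cancel]
      exact Nat.succ_le_of_lt Nat.lt_two_pow_self
    calc a * 2 ^ tw k x ≤ 2 ^ (a - 1) * 2 ^ tw k x := Nat.mul_le_mul_right _ h3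
      _ = 2 ^ (tw k x + (a - 1)) := by rw [← pow_add, add_comm]
      _ ≤ 2 ^ tw k (a * x) := Nat.pow_le_pow_right (by norm_num) (h2.trans ih)

lemma pow_tw (k : ℕ) {p x : ℕ} (hp : 1 ≤ p) (hx : 1 ≤ x) :
    tw (k + 1) x ^ p ≤ tw (k + 1) (p * x) := by
  show (2 ^ tw k x) ^ p ≤ 2 ^ tw k (p * x)
  rw [← pow_mul, mul_comm]
  exact Nat.pow_le_pow_right (by norm_num) (mul_tw k hp hx)

/-- the exponents -/
def ex (K M : ℕ) : ℕ → ℕ
  | 0 => M
  | 1 => (4 * K + 2) * M ^ 2
  | s + 2 => ((2 * K + 1) * (s + 3) ^ 2) * ex K M (s + 1)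

lemma ex_pos (K : ℕ) {M : ℕ} (hM : 1 ≤ M) : ∀ s, 1 ≤ ex K M s
  | 0 => hM
  | 1 => by
    show 1 ≤ (4 * K + 2) * M ^ 2
    have : 1 ≤ M ^ 2 := Nat.one_le_pow _ _ hM
    nlinarith
  | s + 2 => by
    show 1 ≤ ((2 * K + 1) * (s + 3) ^ 2) * ex K M (s + 1)
    have h1 := ex_pos K hM (s + 1)
    have h2 : 1 ≤ (s + 3) ^ 2 := Nat.one_le_pow _ _ (by omega)
    have h3 : 1 ≤ (2 * K + 1) * (s + 3) ^ 2 := by nlinarith
    nlinarith

lemma rb_step (K M s : ℕ) (hm : 1 ≤ rb K M s) :
    rb K M (s + 1) ≤ 2 ^ ((2 * K + 1) * (s + 2) * rb K M s ^ (s + 2)) := by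
  set m := rb K M s with hmd
  show (2 * (4 ^ K) ^ ((s + 2) * m ^ (s + 1))) ^ m ≤ _
  have e : (2 * (4 ^ K) ^ ((s + 2) * m ^ (s + 1))) ^ m =
      2 ^ (m + 2 * K * (s + 2) * m ^ (s + 2)) := by
    rw [show (4 : ℕ) = 2 ^ 2 by norm_num, mul_pow, ← pow_mul, ← pow_mul, ← pow_mul, ← pow_add]
    congr 1
    ring
  rw [e]
  apply Nat.pow_le_pow_right (by norm_num)
  have h1 : m ≤ m ^ (s + 2) := Nat.le_self_pow (by omega) m
  nlinarith [Nat.zero_le (s * m ^ (s + 2))]

theorem rb_le (K : ℕ) {M : ℕ} (hM : 1 ≤ M) (s : ℕ) : rb K M s ≤ tw s (ex K M s) := by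
  induction s with
  | zero => exact le_rfl
  | succ s ih =>
    rcases Nat.eq_zero_or_pos (rb K M s) with h0 | hpos
    · have : rb K M (s + 1) = 1 := by
        show (2 * (4 ^ K) ^ ((s + 2) * (rb K M s) ^ (s + 1))) ^ (rb K M s) = 1
        rw [h0, pow_zero]
      rw [this]
      exact tw_pos _ (ex_pos K hM _)
    refine (rb_step K M s hpos).trans ?_
    show 2 ^ _ ≤ 2 ^ tw s (ex K M (s + 1))
    apply Nat.pow_le_pow_right (by norm_num)
    have h1 : rb K M s ^ (s + 2) ≤ tw s (ex K M s) ^ (s + 2) := Nat.pow_le_pow_left ih _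
    refine (Nat.mul_le_mul_left _ h1).trans ?_
    cases s with
    | zero =>
      show (2 * K + 1) * (0 + 2) * M ^ (0 + 2) ≤ (4 * K + 2) * M ^ 2
      apply le_of_eq
      ring
    | succ s =>
      have h2 := pow_tw s (p := s + 1 + 2) (by omega) (ex_pos K hM (s + 1))
      refine (Nat.mul_le_mul_left _ h2).trans ?_
      have h3 : 1 ≤ (2 * K + 1) * (s + 1 + 2) := by nlinarith
      have h4 : 1 ≤ (s + 1 + 2) * ex K M (s + 1) := by
        have := ex_pos K hM (s + 1)
        nlinarith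
      refine (mul_tw (s + 1) h3 h4).trans ?_
      apply tw_mono
      show (2 * K + 1) * (s + 1 + 2) * ((s + 1 + 2) * ex K M (s + 1)) ≤
        ((2 * K + 1) * (s + 3) ^ 2) * ex K M (s + 1)
      apply le_of_eq
      ring

/-- a constant depending on the uniformity -/
def cs : ℕ → ℕ
  | 0 => 2
  | s + 1 => (s + 3) ^ 2 * cs s

lemma cs_pos : ∀ s, 1 ≤ cs s
  | 0 => by norm_num [cs]
  | s + 1 => by
    show 1 ≤ (s + 3) ^ 2 * cs s
    exact Nat.mul_pos (by positivity) (cs_pos s)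

lemma ex_closed (K M : ℕ) (s : ℕ) : ex K M (s + 1) = cs s * (2 * K + 1) ^ (s + 1) * M ^ 2 := by
  induction s with
  | zero =>
    show (4 * K + 2) * M ^ 2 = 2 * (2 * K + 1) ^ 1 * M ^ 2
    ring
  | succ s ih =>
    show ((2 * K + 1) * (s + 3) ^ 2) * ex K M (s + 1) = (s + 3) ^ 2 * cs s * (2 * K + 1) ^ (s + 2)
      * M ^ 2
    rw [ih]
    ring

lemma two_K_le (K : ℕ) : 2 * K + 1 ≤ 2 ^ 4 ^ K := by
  induction K with
  | zero => norm_num
  | succ K ih =>
    rw [pow_succ 4 K, pow_mul]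
    have h1 : 2 ≤ 2 ^ 4 ^ K := by
      calc 2 = 2 ^ 1 := by norm_num
        _ ≤ 2 ^ 4 ^ K := Nat.pow_le_pow_right (by norm_num) (Nat.one_le_pow _ _ (by norm_num))
    have h2 : 2 * (2 ^ 4 ^ K) ≤ (2 ^ 4 ^ K) ^ 4 := by
      have h3 : (2 ^ 4 ^ K) ^ 4 = (2 ^ 4 ^ K) ^ 3 * 2 ^ 4 ^ K := by ring
      rw [h3]
      apply Nat.mul_le_mul_right
      calc 2 ≤ 2 ^ 4 ^ K := h1
        _ ≤ (2 ^ 4 ^ K) ^ 3 := Nat.le_self_pow (by norm_num) _
    omega

/-- the bound for few properties -/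
theorem rb_few (s K n : ℕ) (hn : 1 ≤ n) :
    rb K (bd n K) (s + 1) ≤ tw (s + 1) ((cs s * 2 ^ (s + 2) * n) ^ (2 * 4 ^ K)) := by
  have hbd0 : 1 ≤ bd n K := by
    induction K with
    | zero => exact hn
    | succ K ih =>
      show 1 ≤ 4 * bd n K ^ 4
      have : 1 ≤ bd n K ^ 4 := Nat.one_le_pow _ _ ih
      omega
  refine (rb_le K hbd0 (s + 1)).trans (tw_mono _ ?_)
  rw [ex_closed]
  have hbd : bd n K ≤ (2 * n) ^ 4 ^ K := by
    have := bd_le n K
    omega
  set E := 4 ^ K with hE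
  have hE1 : 1 ≤ E := Nat.one_le_pow _ _ (by norm_num)
  have hE0 : E ≠ 0 := by omega
  calc cs s * (2 * K + 1) ^ (s + 1) * bd n K ^ 2
      ≤ (cs s) ^ E * (2 ^ E) ^ (s + 1) * ((2 * n) ^ E) ^ 2 :=
        Nat.mul_le_mul (Nat.mul_le_mul (Nat.le_self_pow hE0 _)
          (Nat.pow_le_pow_left (two_K_le K) _)) (Nat.pow_le_pow_left hbd _)
    _ = (cs s * 2 ^ (s + 1) * (2 * n) ^ 2) ^ E := by
        rw [mul_pow (cs s * 2 ^ (s + 1)) ((2 * n) ^ 2) E, mul_pow (cs s) (2 ^ (s + 1)) E,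
          ← pow_mul, ← pow_mul, ← pow_mul, ← pow_mul, mul_comm E (s + 1), mul_comm E 2]
    _ ≤ ((cs s * 2 ^ (s + 2) * n) ^ 2) ^ E := by
        apply Nat.pow_le_pow_left
        have e : (cs s * 2 ^ (s + 2) * n) ^ 2 =
            (cs s * 2 ^ (s + 1)) * (cs s * 2 ^ (s + 1) * (2 * n) ^ 2) := by
          rw [show s + 2 = s + 1 + 1 by rfl, pow_succ 2 (s + 1)]
          ring
        rw [e]
        apply Nat.le_mul_of_pos_left
        exact Nat.mul_pos (cs_pos s) (by positivity)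
    _ = (cs s * 2 ^ (s + 2) * n) ^ (2 * E) := by rw [← pow_mul]

end Pool.Agent.V11247.Cmp
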