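import Pool.Agent.V11247.Cmp.Defs

/-!
# Chain links: pairs
-/

set_option autoImplicit false

namespace Pool.Agent.V11247.Cmp

open Finset

/-- initial segments -/
lemma exists_initial (V : Finset ℕ) (k : ℕ) (hk : k ≤ V.card) :
    ∃ L ⊆ V, L.card = k ∧ ∀ l ∈ L, ∀ u ∈ V \ L, l < u := by
  induction k with
  | zero => exact ⟨∅, empty_subset _, rfl, by simp⟩
  | succ k ih =>
    obtain ⟨L, hL, hc, hlt⟩ := ih (by omega)
    have hne : (V \ L).Nonempty := by
      rw [← card_pos, card_sdiff_of_subset hL]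
      omega
    set p := (V \ L).min' hne with hp
    have hpm : p ∈ V \ L := min'_mem _ _
    have hpV := (mem_sdiff.1 hpm).1
    have hpL := (mem_sdiff.1 hpm).2
    refine ⟨insert p L, insert_subset hpV hL, by rw [card_insert_of_notMem hpL, hc], ?_⟩
    intro l hl u hu
    have hu' := mem_sdiff.1 hu
    have hu2 : u ∈ V \ L := mem_sdiff.2 ⟨hu'.1, fun h => hu'.2 (mem_insert_of_mem h)⟩
    rcases mem_insert.1 hl with rfl | hl
    · exact lt_of_le_of_ne (min'_le _ _ hu2) (fun h => hu'.2 (h ▸ mem_insert_self _ _))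
    · exact hlt l hl u hu2

/-- two sets with a homogeneous pair between them -/
lemma combine {β : Finset ℕ → Prop} {A B : Finset ℕ} {t : ℕ} (hAB : ∀ a ∈ A, ∀ b ∈ B, a < b)
    (hh : ∀ a ∈ A, ∀ b ∈ B, β {a, b})
    {XA YA XB YB : Finset ℕ} (hXA : XA ⊆ A) (hXB : XB ⊆ B)
    (h1 : ∀ a ∈ XA, ∀ b ∈ XA, a < b → β {a, b}) (h2 : ∀ a ∈ XB, ∀ b ∈ XB, a < b → β {a, b})
    (c1 : t ≤ XA.card * YA.card) (c2 : t ≤ XB.card * YB.card) :
    ∃ X ⊆ A ∪ B, (∀ a ∈ X, ∀ b ∈ X, a < b → β {a, b}) ∧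
      (2 * t ≤ X.card * YA.card ∨ 2 * t ≤ X.card * YB.card) := by
  refine ⟨XA ∪ XB, union_subset_union hXA hXB, ?_, ?_⟩
  · intro a ha b hb hab
    rcases mem_union.1 ha with ha | ha <;> rcases mem_union.1 hb with hb | hb
    · exact h1 a ha b hb hab
    · exact hh a (hXA ha) b (hXB hb)
    · exact absurd (hAB b (hXA hb) a (hXB ha)) (by omega)
    · exact h2 a ha b hb hab
  · have hd : Disjoint XA XB := by
      rw [disjoint_left]
      intro a ha hb
      exact lt_irrefl a (hAB a (hXA ha) a (hXB hb))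
    rw [card_union_of_disjoint hd]
    rcases le_total YA.card YB.card with h | h
    · right
      have : XA.card * YA.card ≤ XA.card * YB.card := Nat.mul_le_mul_left _ h
      nlinarith
    · left
      have : XB.card * YB.card ≤ XB.card * YA.card := Nat.mul_le_mul_left _ h
      nlinarith

lemma pair_chain {V : Finset ℕ} {β : Finset ℕ → Prop} (h : ChainLinks 2 V β) {x x' z z' : ℕ}
    (hx : x ∈ V) (hx' : x' ∈ V) (hz : z ∈ V) (hz' : z' ∈ V) (h1 : x < z) (h2 : x < z')
    (h3 : x' < z) (h4 : x' < z') (b1 : β {x, z}) (b2 : β {x', z'}) : β {x, z'} ∨ β {x', z} :=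
  h ∅ (empty_subset _) (by simp) x hx x' hx' z hz z' hz' (by simp) h1 h2 h3 h4 b1 b2

theorem pairs_product (s : ℕ) : ∀ (V : Finset ℕ) (β : Finset ℕ → Prop), ChainLinks 2 V β →
    4 ^ s ≤ V.card → ∃ X ⊆ V, ∃ Y ⊆ V, (∀ a ∈ X, ∀ b ∈ X, a < b → β {a, b}) ∧
      (∀ a ∈ Y, ∀ b ∈ Y, a < b → ¬ β {a, b}) ∧ 2 ^ s ≤ X.card * Y.card := by
  classical
  induction s with
  | zero =>
    intro V β _ hV
    have hne : V.Nonempty := card_pos.1 (by simpa using hV)
    obtain ⟨v, hv⟩ := hne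
    refine ⟨{v}, by simpa using hv, {v}, by simpa using hv, ?_, ?_, by simp⟩
    · intro a ha b hb hab
      rw [mem_singleton] at ha hb
      omega
    · intro a ha b hb hab
      rw [mem_singleton] at ha hb
      omega
  | succ s ih =>
    intro V β hβ hV
    set q := 4 ^ s with hq
    have hq1 : 1 ≤ q := Nat.one_le_pow _ _ (by norm_num)
    have hV4 : 4 * q ≤ V.card := by
      rw [hq]
      calc 4 * 4 ^ s = 4 ^ (s + 1) := by ring
        _ ≤ V.card := hV
    obtain ⟨L, hLV, hLc, hLt⟩ := exists_initial V (2 * q) (by omega)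
    set U := V \ L with hU
    have hUV : U ⊆ V := sdiff_subset
    have hUc : 2 * q ≤ U.card := by
      rw [hU, card_sdiff_of_subset hLV]
      omega
    let N : ℕ → Finset ℕ := fun x => U.filter (fun z => β {x, z})
    have hnest : ∀ x ∈ L, ∀ x' ∈ L, N x ⊆ N x' ∨ N x' ⊆ N x := by
      intro x hx x' hx'
      by_contra hcon
      push Not at hcon
      obtain ⟨h1, h2⟩ := hcon
      obtain ⟨z, hz, hz2⟩ := not_subset.1 h1
      obtain ⟨z', hz', hz2'⟩ := not_subset.1 h2
      obtain ⟨zU, zb⟩ := mem_filter.1 hz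
      obtain ⟨zU', zb'⟩ := mem_filter.1 hz'
      rcases pair_chain hβ (hLV hx) (hLV hx') (hUV zU) (hUV zU') (hLt x hx z zU)
        (hLt x hx z' zU') (hLt x' hx' z zU) (hLt x' hx' z' zU') zb zb' with h | h
      · exact hz2' (mem_filter.2 ⟨zU', h⟩)
      · exact hz2 (mem_filter.2 ⟨zU, h⟩)
    set L1 := L.filter (fun x => q ≤ (N x).card) with hL1
    by_cases hbig : q ≤ L1.card
    · -- a complete pair
      have hne : L1.Nonempty := card_pos.1 (by omega)
      obtain ⟨x0, hx0, hmin⟩ := exists_min_image L1 (fun x => (N x).card) hne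
      have hx0L := (mem_filter.1 hx0).1
      have hsub : ∀ x ∈ L1, N x0 ⊆ N x := by
        intro x hx
        rcases hnest x0 hx0L x (mem_filter.1 hx).1 with h | h
        · exact h
        · exact (eq_of_subset_of_card_le h (hmin x hx)).ge
      have hL1V : L1 ⊆ V := (filter_subset _ _).trans hLV
      have hNV : N x0 ⊆ V := (filter_subset _ _).trans hUV
      obtain ⟨XA, hXA, YA, hYA, a1, a2, a3⟩ := ih L1 β (hβ.mono hL1V) hbig
      obtain ⟨XB, hXB, YB, hYB, b1, b2, b3⟩ := ih (N x0) β (hβ.mono hNV)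
        (mem_filter.1 hx0).2
      have hAB : ∀ a ∈ L1, ∀ b ∈ N x0, a < b := fun a ha b hb =>
        hLt a (mem_filter.1 ha).1 b (mem_filter.1 hb).1
      obtain ⟨X, hX, hX1, hX2⟩ := combine (β := β) (t := 2 ^ s) hAB
        (fun a ha b hb => (mem_filter.1 (hsub a ha hb)).2) hXA hXB a1 b1 a3 b3
      have hXV : X ⊆ V := hX.trans (union_subset hL1V hNV)
      rcases hX2 with h | h
      · exact ⟨X, hXV, YA, hYA.trans hL1V, hX1, a2, by rw [pow_succ']; exact h⟩
      · exact ⟨X, hXV, YB, hYB.trans hNV, hX1, b2, by rw [pow_succ']; exact h⟩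
    · -- an empty pair
      set L2 := L \ L1 with hL2
      have hL1L : L1 ⊆ L := filter_subset _ _
      have hL2c : q ≤ L2.card := by
        rw [hL2, card_sdiff_of_subset hL1L]
        omega
      have hne : L2.Nonempty := card_pos.1 (by omega)
      obtain ⟨x0, hx0, hmax⟩ := exists_max_image L2 (fun x => (N x).card) hne
      have hx0L := (mem_sdiff.1 hx0).1
      have hx0c : (N x0).card < q := by
        by_contra hcon
        exact (mem_sdiff.1 hx0).2 (mem_filter.2 ⟨hx0L, by omega⟩)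
      have hsub : ∀ x ∈ L2, N x ⊆ N x0 := by
        intro x hx
        rcases hnest x (mem_sdiff.1 hx).1 x0 hx0L with h | h
        · exact h
        · exact (eq_of_subset_of_card_le h (hmax x hx)).ge
      have hL2V : L2 ⊆ V := sdiff_subset.trans hLV
      set B := U \ N x0 with hB
      have hBV : B ⊆ V := sdiff_subset.trans hUV
      have hNU : N x0 ⊆ U := filter_subset _ _
      have hBc : q ≤ B.card := by
        rw [hB, card_sdiff_of_subset hNU]
        omega
      obtain ⟨XA, hXA, YA, hYA, a1, a2, a3⟩ := ih L2 β (hβ.mono hL2V) hL2c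
      obtain ⟨XB, hXB, YB, hYB, b1, b2, b3⟩ := ih B β (hβ.mono hBV) hBc
      have hAB : ∀ a ∈ L2, ∀ b ∈ B, a < b := fun a ha b hb =>
        hLt a (mem_sdiff.1 ha).1 b (mem_sdiff.1 hb).1
      obtain ⟨Y, hY, hY1, hY2⟩ := combine (β := fun A => ¬ β A) (t := 2 ^ s) hAB
        (fun a ha b hb hβab => (mem_sdiff.1 hb).2
          (hsub a ha (mem_filter.2 ⟨(mem_sdiff.1 hb).1, hβab⟩)))
        hYA hYB a2 b2 (by rw [mul_comm]; exact a3) (by rw [mul_comm]; exact b3)
      have hYV : Y ⊆ V := hY.trans (union_subset hL2V hBV)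
      rcases hY2 with h | h
      · exact ⟨XA, hXA.trans hL2V, Y, hYV, a1, hY1, by rw [pow_succ', mul_comm XA.card]; exact h⟩
      · exact ⟨XB, hXB.trans hBV, Y, hYV, b1, hY1, by rw [pow_succ', mul_comm XB.card]; exact h⟩

/-- a pair is `{a, b}` with `a < b` -/
lemma pair_of_card {A : Finset ℕ} (hA : A.card = 2) : ∃ a b, a < b ∧ A = {a, b} := by
  obtain ⟨a, b, hab, rfl⟩ := card_eq_two.1 hA
  rcases lt_or_gt_of_ne hab with h | h
  · exact ⟨a, b, h, rfl⟩
  · exact ⟨b, a, h, pair_comm a b⟩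

theorem pairs_one {V : Finset ℕ} {β : Finset ℕ → Prop} (hβ : ChainLinks 2 V β) (h : ℕ)
    (hV : 4 * h ^ 4 ≤ V.card) : ∃ H ⊆ V, H.card = h ∧ PHom 2 β H := by
  rcases Nat.eq_zero_or_pos h with rfl | hpos
  · refine ⟨∅, empty_subset _, rfl, ?_⟩
    intro A hA B hB hAc
    rw [subset_empty.1 hA] at hAc
    simp at hAc
  set s := Nat.clog 2 (h ^ 2) with hs
  have hh1 : h ^ 2 ≤ 2 ^ s := Nat.le_pow_clog (by norm_num) _
  have hh2 : 4 ^ s ≤ V.card := by
    have h2 : 2 ^ s ≤ 2 * h ^ 2 := by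
      rcases Nat.lt_or_ge 1 (h ^ 2) with h3 | h3
      · have := Nat.pow_pred_clog_lt_self (b := 2) (by norm_num) h3
        rw [← hs] at this
        have hs1 : 0 < s := Nat.clog_pos (by norm_num) h3
        obtain ⟨u, hu⟩ : ∃ u, s = u + 1 := ⟨s - 1, by omega⟩
        rw [hu] at this ⊢
        rw [Nat.pred_succ] at this
        rw [pow_succ]
        omega
      · have h4 : h ^ 2 = 1 := le_antisymm h3 (Nat.one_le_pow _ _ hpos)
        rw [hs, h4]
        simp
    calc 4 ^ s = (2 ^ s) ^ 2 := by rw [← pow_mul, mul_comm, pow_mul]; norm_num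
      _ ≤ (2 * h ^ 2) ^ 2 := Nat.pow_le_pow_left h2 2
      _ = 4 * h ^ 4 := by ring
      _ ≤ V.card := hV
  obtain ⟨X, hX, Y, hY, h1, h2, h3⟩ := pairs_product s V β hβ hh2
  have h4 : h * h ≤ X.card * Y.card := by nlinarith
  have h5 : h ≤ X.card ∨ h ≤ Y.card := by
    by_contra hcon
    push Not at hcon
    have := Nat.mul_lt_mul'' hcon.1 hcon.2
    omega
  rcases h5 with h5 | h5
  · obtain ⟨H, hH, hHc⟩ := exists_subset_card_eq h5
    refine ⟨H, hH.trans hX, hHc, ?_⟩
    intro A hA B hB hAc hBc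
    obtain ⟨a, b, hab, rfl⟩ := pair_of_card hAc
    obtain ⟨c, d, hcd, rfl⟩ := pair_of_card hBc
    have e1 := h1 a (hH (hA (by simp))) b (hH (hA (by simp))) hab
    have e2 := h1 c (hH (hB (by simp))) d (hH (hB (by simp))) hcd
    exact ⟨fun _ => e2, fun _ => e1⟩
  · obtain ⟨H, hH, hHc⟩ := exists_subset_card_eq h5
    refine ⟨H, hH.trans hY, hHc, ?_⟩
    intro A hA B hB hAc hBc
    obtain ⟨a, b, hab, rfl⟩ := pair_of_card hAc
    obtain ⟨c, d, hcd, rfl⟩ := pair_of_card hBc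
    have e1 := h2 a (hH (hA (by simp))) b (hH (hA (by simp))) hab
    have e2 := h2 c (hH (hB (by simp))) d (hH (hB (by simp))) hcd
    exact ⟨fun h => absurd h e1, fun h => absurd h e2⟩

/-- number of vertices needed for `K` properties of pairs -/
def bd (h : ℕ) : ℕ → ℕ
  | 0 => h
  | K + 1 => 4 * bd h K ^ 4

lemma bd_le (h K : ℕ) : 2 * bd h K ≤ (2 * h) ^ 4 ^ K := by
  induction K with
  | zero => simp [bd]
  | succ K ih =>
    show 2 * (4 * bd h K ^ 4) ≤ _
    calc 2 * (4 * bd h K ^ 4) ≤ (2 * bd h K) ^ 4 := by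
          have : (2 * bd h K) ^ 4 = 16 * bd h K ^ 4 := by ring
          rw [this]
          omega
      _ ≤ ((2 * h) ^ 4 ^ K) ^ 4 := Nat.pow_le_pow_left ih 4
      _ = (2 * h) ^ 4 ^ (K + 1) := by rw [← pow_mul, pow_succ]

theorem pairs_many {ι : Type*} [DecidableEq ι] (T : Finset ι) (β : ι → Finset ℕ → Prop) (h : ℕ) :
    ∀ V : Finset ℕ, (∀ t ∈ T, ChainLinks 2 V (β t)) → bd h T.card ≤ V.card →
      ∃ H ⊆ V, H.card = h ∧ ∀ t ∈ T, PHom 2 (β t) H := by
  induction T using Finset.induction_on with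
  | empty =>
    intro V _ hV
    obtain ⟨H, hH, hHc⟩ := exists_subset_card_eq (s := V) (n := h) (by simpa [bd] using hV)
    exact ⟨H, hH, hHc, by simp⟩
  | insert t T ht ih =>
    intro V hβ hV
    rw [card_insert_of_notMem ht] at hV
    obtain ⟨H1, hH1, hc1, hh1⟩ := pairs_one (hβ t (mem_insert_self _ _)) (bd h T.card) hV
    obtain ⟨H, hH, hc, hh⟩ := ih H1 (fun u hu => (hβ u (mem_insert_of_mem hu)).mono hH1)
      (by rw [hc1])
    refine ⟨H, hH.trans hH1, hc, ?_⟩
    intro u hu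
    rcases mem_insert.1 hu with rfl | hu
    · exact hh1.mono hH
    · exact hh u hu

end Pool.Agent.V11247.Cmp
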